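import Mathlib

/-!
MP_35e3b8_an.  A negative answer to Q1 (Kazhdan-Yom Din question in the Lipschitz-free setting):
for every `ε > 0` there are a pointed metric space `M`, a group `G` acting on it by isometries and
an `ε`-invariant function `f` with Lipschitz constant `1` whose distance to every invariant function
is at least `1`.
-/

open CircleDeg1Lift

namespace Pool.Agent.Results.MP_35e3b8_an.TranslationNumber

/-- The Lipschitz constant `L(f) = sup d(f x, f y) / d(x, y)` of a real function, as an extended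
nonnegative real. -/
noncomputable def lipNorm {M : Type} [MetricSpace M] (f : M → ℝ) : ENNReal :=
  ⨆ (x : M) (y : M), edist (f x) (f y) / edist x y

/-- The action of `G` on functions vanishing at the base point `o`:
`(g f)(x) = f (g⁻¹ x) - f (g⁻¹ o)`. -/
def actOn {G M : Type} [Group G] [MulAction G M] (o : M) (g : G) (f : M → ℝ) : M → ℝ :=
  fun x => f (g⁻¹ • x) - f (g⁻¹ • o)

section qm

variable {G : Type} [Group G] (φ : G → ℝ) (C D : ℝ)

/-- The left invariant metric `d(x, y) = |φ(x⁻¹ y)| + C` (`x ≠ y`) of a quasimorphism `φ`. -/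
noncomputable def qmDist (x y : G) : ℝ :=
  open Classical in if x = y then 0 else |φ (x⁻¹ * y)| + C

/-- The metric space structure. -/
@[reducible] noncomputable def qmMetric (hD : ∀ x y, |φ (x * y) - φ x - φ y| ≤ D)
    (hinv : ∀ x, φ x⁻¹ = -φ x) (hDC : D ≤ C) (hC : 0 < C) : MetricSpace G where
  dist := qmDist φ C
  dist_self x := by simp [qmDist]
  dist_comm x y := by
    unfold qmDist
    by_cases h : x = y
    · simp [h]
    · rw [if_neg h, if_neg (Ne.symm h)]
      have : x⁻¹ * y = (y⁻¹ * x)⁻¹ := by group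
      rw [this, hinv, abs_neg]
  dist_triangle x y z := by
    unfold qmDist
    by_cases h1 : x = z
    · rw [if_pos h1]
      split_ifs <;> positivity
    · rw [if_neg h1]
      by_cases h2 : x = y
      · subst h2; rw [if_neg h1, if_pos rfl, zero_add]
      · by_cases h3 : y = z
        · subst h3; rw [if_neg h1, if_pos rfl, add_zero]
        · rw [if_neg h2, if_neg h3]
          have h4 := hD (x⁻¹ * y) (y⁻¹ * z)
          have h5 : x⁻¹ * y * (y⁻¹ * z) = x⁻¹ * z := by group
          rw [h5] at h4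
          have h6 : |φ (x⁻¹ * z)| ≤ |φ (x⁻¹ * y)| + |φ (y⁻¹ * z)| + D := by
            have h7 := abs_le.1 h4
            rw [abs_le]
            constructor
            · have := neg_abs_le (φ (x⁻¹ * y)); have := neg_abs_le (φ (y⁻¹ * z)); linarith
            · have := le_abs_self (φ (x⁻¹ * y)); have := le_abs_self (φ (y⁻¹ * z)); linarith
          linarith
  eq_of_dist_eq_zero := by
    intro x y h
    unfold qmDist at h
    by_contra hne
    rw [if_neg hne] at h
    have := abs_nonneg (φ (x⁻¹ * y))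
    linarith

end qm

/-! ### Homeomorphisms of the line fixing the integers -/

/-- A strictly increasing parametrisation of `(0, 1)` by the line. -/
noncomputable def par (u : ℝ) : ℝ := (1 + (orderIsoIooNegOneOne ℝ u : ℝ)) / 2

lemma par_strictMono : StrictMono par := by
  intro u v h
  have := (orderIsoIooNegOneOne ℝ).strictMono h
  have h2 : (orderIsoIooNegOneOne ℝ u : ℝ) < orderIsoIooNegOneOne ℝ v := this
  unfold par
  linarith

lemma par_pos (u : ℝ) : 0 < par u := by
  have := (orderIsoIooNegOneOne ℝ u).2.1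
  unfold par; linarith

lemma par_lt_one (u : ℝ) : par u < 1 := by
  have := (orderIsoIooNegOneOne ℝ u).2.2
  unfold par; linarith

lemma par_surj {r : ℝ} (h0 : 0 < r) (h1 : r < 1) : ∃ u, par u = r := by
  refine ⟨(orderIsoIooNegOneOne ℝ).symm ⟨2 * r - 1, by constructor <;> linarith⟩, ?_⟩
  unfold par
  rw [OrderIso.apply_symm_apply]
  ring

/-- Inverse of `par`. -/
noncomputable def qar : ℝ → ℝ := Function.invFun par

lemma qar_par (u : ℝ) : qar (par u) = u := Function.leftInverse_invFun par_strictMono.injective u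

/-- The periodic homeomorphism of the line fixing the integers which is conjugate to `e` on each
interval `(n, n+1)`. -/
noncomputable def lift (e : ℝ ≃o ℝ) (x : ℝ) : ℝ :=
  open Classical in
  if Int.fract x = 0 then x else ⌊x⌋ + par (e (qar (Int.fract x)))

lemma fract_par (n : ℤ) (u : ℝ) : Int.fract ((n : ℝ) + par u) = par u := by
  rw [Int.fract_intCast_add, Int.fract_eq_self]
  exact ⟨(par_pos u).le, par_lt_one u⟩

lemma floor_par (n : ℤ) (u : ℝ) : ⌊(n : ℝ) + par u⌋ = n := by
  rw [Int.floor_intCast_add, Int.floor_eq_zero_iff.2 ⟨(par_pos u).le, par_lt_one u⟩, add_zero]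

lemma lift_par (e : ℝ ≃o ℝ) (n : ℤ) (u : ℝ) : lift e ((n : ℝ) + par u) = n + par (e u) := by
  unfold lift
  rw [fract_par, if_neg (par_pos u).ne', floor_par, qar_par]

lemma lift_int (e : ℝ ≃o ℝ) (n : ℤ) : lift e n = n := by
  unfold lift
  rw [if_pos (Int.fract_intCast n)]

lemma cases (x : ℝ) : (∃ n : ℤ, x = n) ∨ ∃ (n : ℤ) (u : ℝ), x = n + par u := by
  by_cases h : Int.fract x = 0
  · exact Or.inl ⟨⌊x⌋, (by have := Int.self_sub_floor x; linarith)⟩
  · right
    obtain ⟨u, hu⟩ := par_surj (lt_of_le_of_ne (Int.fract_nonneg x) (Ne.symm h)) (Int.fract_lt_one x)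
    exact ⟨⌊x⌋, u, by rw [hu]; have := Int.self_sub_floor x; linarith⟩

lemma lift_mem (e : ℝ ≃o ℝ) (n : ℤ) {x : ℝ} (h1 : (n : ℝ) ≤ x) (h2 : x < n + 1) :
    (n : ℝ) ≤ lift e x ∧ lift e x < n + 1 := by
  rcases cases x with ⟨m, rfl⟩ | ⟨m, u, rfl⟩
  · rw [lift_int]; exact ⟨h1, h2⟩
  · have h3 : m = n := by
      have ha := floor_par m u
      rw [← ha]
      exact Int.floor_eq_iff.2 ⟨h1, h2⟩
    subst h3
    rw [lift_par]
    have := par_pos (e u); have := par_lt_one (e u)
    constructor <;> linarith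

lemma lift_mono (e : ℝ ≃o ℝ) : Monotone (lift e) := by
  intro x y hxy
  rcases lt_or_eq_of_le (Int.floor_le_floor hxy) with h | h
  · have h1 := (lift_mem e ⌊x⌋ (Int.floor_le x) (Int.lt_floor_add_one x)).2
    have h2 := (lift_mem e ⌊y⌋ (Int.floor_le y) (Int.lt_floor_add_one y)).1
    have h3 : ((⌊x⌋ : ℤ) : ℝ) + 1 ≤ ⌊y⌋ := by exact_mod_cast h
    linarith
  · rcases cases x with ⟨m, rfl⟩ | ⟨m, u, rfl⟩
    · rw [lift_int]
      have h2 := (lift_mem e ⌊y⌋ (Int.floor_le y) (Int.lt_floor_add_one y)).1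
      rw [← h, Int.floor_intCast] at h2
      exact h2
    · rcases cases y with ⟨k, rfl⟩ | ⟨k, v, rfl⟩
      · rw [floor_par, Int.floor_intCast] at h
        subst h
        have := par_pos u
        linarith
      · rw [floor_par, floor_par] at h
        subst h
        rw [lift_par, lift_par]
        have h4 : par u ≤ par v := by linarith
        have h5 := par_strictMono.monotone (e.monotone (par_strictMono.le_iff_le.1 h4))
        linarith

lemma lift_add_one (e : ℝ ≃o ℝ) (x : ℝ) : lift e (x + 1) = lift e x + 1 := by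
  rcases cases x with ⟨m, rfl⟩ | ⟨m, u, rfl⟩
  · have := lift_int e (m + 1)
    push_cast at this
    rw [this, lift_int]
  · have := lift_par e (m + 1) u
    push_cast at this
    rw [lift_par, show (m : ℝ) + par u + 1 = m + 1 + par u by ring, this]
    ring

lemma lift_mul (e e' : ℝ ≃o ℝ) (x : ℝ) : lift (e * e') x = lift e (lift e' x) := by
  rcases cases x with ⟨m, rfl⟩ | ⟨m, u, rfl⟩
  · rw [lift_int, lift_int, lift_int]
  · rw [lift_par, lift_par, lift_par]; rfl

lemma lift_one (x : ℝ) : lift 1 x = x := by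
  rcases cases x with ⟨m, rfl⟩ | ⟨m, u, rfl⟩
  · rw [lift_int]
  · rw [lift_par]; rfl

/-- `lift` as a homomorphism to the group of lifts of circle homeomorphisms. -/
noncomputable def liftHom : (ℝ ≃o ℝ) →* CircleDeg1Liftˣ :=
  MonoidHom.toHomUnits
    { toFun := fun e => ⟨⟨lift e, lift_mono e⟩, lift_add_one e⟩
      map_one' := by ext x; exact lift_one x
      map_mul' := fun e e' => by ext x; exact lift_mul e e' x }

lemma liftHom_apply (e : ℝ ≃o ℝ) (x : ℝ) : (liftHom e : CircleDeg1Lift) x = lift e x := rfl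

/-- Translation of the line by `1`, as an order isomorphism. -/
noncomputable def trans1 : ℝ ≃o ℝ := OrderIso.addRight 1

/-- Multiplication by `2`. -/
noncomputable def scale2 : ℝ ≃o ℝ := OrderIso.mulLeft₀ 2 (by norm_num)

lemma scale_conj : scale2 * trans1 = trans1 ^ 2 * scale2 := by
  ext x
  show (2 : ℝ) * (x + 1) = (2 * x + 1) + 1
  ring

/-- The first parabolic element (fixing exactly the integers). -/
noncomputable def h1 : CircleDeg1Liftˣ := liftHom trans1

/-- Translation by `1/2`. -/
noncomputable def thalf : CircleDeg1Liftˣ := translate (Multiplicative.ofAdd (1 / 2 : ℝ))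

/-- The second parabolic element (fixing exactly the half-integers). -/
noncomputable def h2 : CircleDeg1Liftˣ := thalf * h1 * thalf⁻¹

lemma h1_conj : liftHom scale2 * h1 = h1 ^ 2 * liftHom scale2 := by
  unfold h1
  rw [← map_pow, ← map_mul, ← map_mul, scale_conj]

lemma h1_apply_int (n : ℤ) : (h1 : CircleDeg1Lift) n = n := lift_int _ n

lemma h1_apply_par (n : ℤ) (u : ℝ) : (n : ℝ) + par u < (h1 : CircleDeg1Lift) (n + par u) := by
  show (n : ℝ) + par u < lift trans1 (n + par u)
  rw [lift_par]
  have : par u < par (trans1 u) := par_strictMono (by show u < u + 1; linarith)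
  linarith

lemma le_h1 (x : ℝ) : x ≤ (h1 : CircleDeg1Lift) x := by
  rcases cases x with ⟨m, rfl⟩ | ⟨m, u, rfl⟩
  · rw [h1_apply_int]
  · exact (h1_apply_par m u).le

lemma h2_apply (x : ℝ) : (h2 : CircleDeg1Lift) x = 1 / 2 + (h1 : CircleDeg1Lift) (x - 1 / 2) := by
  show ((thalf : CircleDeg1Lift) * h1 * ((thalf⁻¹ : CircleDeg1Liftˣ) : CircleDeg1Lift)) x = _
  rw [CircleDeg1Lift.mul_apply, CircleDeg1Lift.mul_apply]
  unfold thalf
  rw [translate_apply, translate_inv_apply]
  congr 2
  ring

lemma lt_h1h2 (x : ℝ) : x + 0 < ((h1 * h2 : CircleDeg1Liftˣ) : CircleDeg1Lift) x := by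
  rw [add_zero, Units.val_mul, CircleDeg1Lift.mul_apply, h2_apply]
  rcases cases (x - 1 / 2) with ⟨m, hm⟩ | ⟨m, u, hu⟩
  · rw [hm, h1_apply_int]
    have h3 : (1 : ℝ) / 2 + m = m + 1 / 2 := by ring
    obtain ⟨u, hu⟩ := par_surj (r := 1 / 2) (by norm_num) (by norm_num)
    rw [h3, ← hu]
    have := h1_apply_par m u
    linarith
  · have h4 := h1_apply_par m u
    rw [← hu] at h4
    have h5 := le_h1 (1 / 2 + (h1 : CircleDeg1Lift) (x - 1 / 2))
    linarith

lemma tau_pos : 0 < translationNumber ((h1 * h2 : CircleDeg1Liftˣ) : CircleDeg1Lift) := by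
  apply lt_translationNumber_of_forall_add_lt
  · have := (toOrderIso (h1 * h2)).continuous
    exact this
  · exact lt_h1h2

/-- The homogeneous quasimorphism: Poincare's translation number. -/
noncomputable def tau (g : CircleDeg1Liftˣ) : ℝ := translationNumber (g : CircleDeg1Lift)

lemma tau_defect (f g : CircleDeg1Liftˣ) : |tau (f * g) - tau f - tau g| ≤ 4 := by
  have a1 := dist_map_zero_translationNumber_le ((f * g : CircleDeg1Liftˣ) : CircleDeg1Lift)
  have a2 := dist_map_zero_translationNumber_le (f : CircleDeg1Lift)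
  have a3 := dist_map_zero_translationNumber_le (g : CircleDeg1Lift)
  have a4 := dist_map_map_zero_lt (f : CircleDeg1Lift) (g : CircleDeg1Lift)
  rw [Real.dist_eq, abs_le] at a1 a2 a3
  rw [Real.dist_eq, abs_lt] at a4
  rw [Units.val_mul, CircleDeg1Lift.mul_apply] at a1
  unfold tau
  rw [Units.val_mul, abs_le]
  constructor <;> linarith [a1.1, a1.2, a2.1, a2.2, a3.1, a3.2, a4.1, a4.2]

lemma tau_inv (f : CircleDeg1Liftˣ) : tau f⁻¹ = -tau f := translationNumber_units_inv f

lemma tau_one : tau 1 = 0 := translationNumber_one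

lemma tau_pow (f : CircleDeg1Liftˣ) (n : ℕ) : tau (f ^ n) = n * tau f := by
  unfold tau; rw [Units.val_pow_eq_pow_val, translationNumber_pow]

lemma lipNorm_le {M : Type} [MetricSpace M] (f : M → ℝ) (K : ℝ) (hK : 0 ≤ K)
    (h : ∀ x y, |f x - f y| ≤ K * dist x y) : lipNorm f ≤ ENNReal.ofReal K := by
  refine iSup_le fun x => iSup_le fun y => ?_
  apply ENNReal.div_le_of_le_mul
  rw [edist_dist, edist_dist, ← ENNReal.ofReal_mul hK, Real.dist_eq]
  exact ENNReal.ofReal_le_ofReal (h x y)

lemma one_le_lipNorm {M : Type} [MetricSpace M] (f : M → ℝ) (o : M) (c C : ℝ) (hc : 0 < c)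
    (y : ℕ → M) (h1 : ∀ n, |f o - f (y n)| = n * c) (h2 : ∀ n, dist o (y n) ≤ n * c + C) :
    1 ≤ lipNorm f := by
  by_contra hlt
  rw [not_le] at hlt
  obtain ⟨r, hr1, hr2⟩ := ENNReal.lt_iff_exists_nnreal_btwn.1 hlt
  have hr3 : (r : ℝ) < 1 := by
    have : r < 1 := by exact_mod_cast hr2
    exact_mod_cast this
  have key : ∀ n : ℕ, (n : ℝ) * c ≤ r * (n * c + C) := by
    intro n
    have h3 : edist (f o) (f (y n)) / edist o (y n) ≤ r :=
      (le_iSup₂ (f := fun x y => edist (f x) (f y) / edist x y) o (y n)).trans hr1.le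
    by_cases h0 : edist o (y n) = 0
    · have h4 : o = y n := edist_eq_zero.1 h0
      have h5 := h1 n
      rw [← h4, sub_self, abs_zero] at h5
      rw [← h5, zero_add]
      have h6 := h2 n
      rw [← h4, dist_self, ← h5, zero_add] at h6
      positivity
    · rw [ENNReal.div_le_iff h0 (edist_ne_top _ _), edist_dist, edist_dist, Real.dist_eq, h1 n] at h3
      have h7 : (n : ℝ) * c ≤ r * dist o (y n) := by
        have h8 : ((r : NNReal) : ENNReal) = ENNReal.ofReal (r : ℝ) := by
          rw [ENNReal.ofReal_coe_nnreal]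
        rw [h8, ← ENNReal.ofReal_mul r.coe_nonneg] at h3
        rwa [ENNReal.ofReal_le_ofReal_iff (mul_nonneg r.coe_nonneg dist_nonneg)] at h3
      exact h7.trans (mul_le_mul_of_nonneg_left (h2 n) r.coe_nonneg)
  obtain ⟨n, hn⟩ := exists_nat_gt (r * C / ((1 - r) * c))
  have h9 : 0 < (1 - (r : ℝ)) * c := mul_pos (by linarith) hc
  rw [div_lt_iff₀ h9] at hn
  have := key n
  nlinarith

/-- **Negative answer to Q1.**  For every `ε > 0` there are a pointed metric space `(M, o)`, a
group `G` acting on `M` by isometries and a function `f` on `M` with `f o = 0` and Lipschitz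
constant `1` which is `ε`-invariant (`L(g f - f) ≤ ε` for all `g ∈ G`), but `L(f - fb) ≥ 1` for
every invariant Lipschitz function `fb` with `fb o = 0`. -/
theorem result : ∀ ε : ℝ, 0 < ε → ∃ (M G : Type) (_ : MetricSpace M) (_ : Group G)
    (_ : MulAction G M) (o : M) (f : M → ℝ),
    (∀ g : G, Isometry (fun x : M => g • x)) ∧ f o = 0 ∧ lipNorm f = 1 ∧
    (∀ g : G, lipNorm (actOn o g f - f) ≤ ENNReal.ofReal ε) ∧
    ∀ fb : M → ℝ, fb o = 0 → lipNorm fb ≠ ⊤ → (∀ g : G, actOn o g fb = fb) →
      1 ≤ lipNorm (f - fb) := by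
  intro ε hε
  set C : ℝ := max 4 (8 / ε) with hCdef
  have hC4 : (4 : ℝ) ≤ C := le_max_left _ _
  have hC8 : 8 ≤ ε * C := by
    have : 8 / ε ≤ C := le_max_right _ _
    rw [div_le_iff₀ hε] at this
    linarith
  let mm : MetricSpace CircleDeg1Liftˣ :=
    qmMetric tau C 4 tau_defect tau_inv hC4 (by linarith)
  have hdist : ∀ x y : CircleDeg1Liftˣ, x ≠ y → dist x y = |tau (x⁻¹ * y)| + C := by
    intro x y hxy
    show qmDist tau C x y = _
    unfold qmDist
    rw [if_neg hxy]
  have hdistle : ∀ x y : CircleDeg1Liftˣ, dist x y ≤ |tau (x⁻¹ * y)| + C := by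
    intro x y
    by_cases h : x = y
    · subst h; rw [dist_self]; positivity
    · rw [hdist x y h]
  -- basic estimate
  have hb : ∀ x y : CircleDeg1Liftˣ, |tau y - tau x - tau (x⁻¹ * y)| ≤ 4 := by
    intro x y
    have := tau_defect x (x⁻¹ * y)
    rwa [mul_inv_cancel_left] at this
  set t : CircleDeg1Liftˣ := h1 * h2 with ht
  have htau : ∀ n : ℕ, tau (t ^ n) = n * tau t := tau_pow t
  have htpos : 0 < tau t := tau_pos
  refine ⟨CircleDeg1Liftˣ, CircleDeg1Liftˣ, mm, inferInstance, inferInstance, 1, tau, ?_, tau_one,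
    ?_, ?_, ?_⟩
  · intro g
    refine Isometry.of_dist_eq fun x y => ?_
    show dist (g * x) (g * y) = dist x y
    by_cases h : x = y
    · subst h; simp
    · rw [hdist x y h, hdist (g * x) (g * y) (fun h' => h (mul_left_cancel h'))]
      congr 3
      group
  · apply le_antisymm
    · rw [← ENNReal.ofReal_one]
      apply lipNorm_le _ _ zero_le_one
      intro x y
      rw [one_mul]
      by_cases h : x = y
      · subst h; simp
      · rw [hdist x y h]
        have h3 := hb x y
        rw [abs_le] at h3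
        have := le_abs_self (tau (x⁻¹ * y))
        have := neg_abs_le (tau (x⁻¹ * y))
        rw [abs_le]
        constructor <;> linarith [h3.1, h3.2]
    · refine one_le_lipNorm tau 1 (tau t) C htpos (fun n => t ^ n) (fun n => ?_) (fun n => ?_)
      · rw [tau_one, htau, zero_sub, abs_neg, abs_of_nonneg (by positivity)]
      · refine (hdistle _ _).trans ?_
        rw [inv_one, one_mul, htau, abs_of_nonneg (by positivity)]
  · intro g
    apply lipNorm_le _ _ hε.le
    intro x y
    by_cases h : x = y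
    · subst h; simp
    · have h1 : ε * C ≤ ε * dist x y := by
        rw [hdist x y h]
        have := abs_nonneg (tau (x⁻¹ * y))
        nlinarith
      have h2 := hb x y
      have h3 := hb (g⁻¹ * x) (g⁻¹ * y)
      have h4 : (g⁻¹ * x)⁻¹ * (g⁻¹ * y) = x⁻¹ * y := by group
      rw [h4] at h3
      rw [abs_le] at h2 h3
      show |(tau (g⁻¹ * x) - tau (g⁻¹ * 1) - tau x) - (tau (g⁻¹ * y) - tau (g⁻¹ * 1) - tau y)| ≤ _
      rw [abs_le]
      constructor <;> linarith [h2.1, h2.2, h3.1, h3.2]
  · intro fb hfb0 _ hinv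
    have hmul : ∀ g x : CircleDeg1Liftˣ, fb (g * x) = fb g + fb x := by
      intro g x
      have h3 := congrFun (hinv g⁻¹) x
      have h4 : fb (g⁻¹⁻¹ * x) - fb (g⁻¹⁻¹ * 1) = fb x := h3
      rw [inv_inv, mul_one] at h4
      linarith
    have hfh1 : fb h1 = 0 := by
      have h3 := congrArg fb h1_conj
      rw [hmul, hmul, pow_two, hmul] at h3
      linarith
    have hfinv : ∀ g : CircleDeg1Liftˣ, fb g⁻¹ = -fb g := by
      intro g
      have := hmul g g⁻¹
      rw [mul_inv_cancel, hfb0] at this
      linarith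
    have hfh2 : fb h2 = 0 := by
      unfold h2
      rw [hmul, hmul, hfinv, hfh1]; ring
    have hft : ∀ n : ℕ, fb (t ^ n) = 0 := by
      intro n
      induction n with
      | zero => rw [pow_zero]; exact hfb0
      | succ n ih => rw [pow_succ, hmul, ih, ht, hmul, hfh1, hfh2]; ring
    refine one_le_lipNorm _ 1 (tau t) C htpos (fun n => t ^ n) (fun n => ?_) (fun n => ?_)
    · rw [Pi.sub_apply, Pi.sub_apply, tau_one, hfb0, hft, htau, sub_zero, sub_zero, zero_sub, abs_neg,
        abs_of_nonneg (by positivity)]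
    · refine (hdistle _ _).trans ?_
      rw [inv_one, one_mul, htau, abs_of_nonneg (by positivity)]

end Pool.Agent.Results.MP_35e3b8_an.TranslationNumber
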